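import Mathlib
import Pool.Agent.helper81.PMApprox

set_option autoImplicit false

namespace Pool.Agent.helper81.Old.ParityGaps

/-- Let `p(n)` be the number of partitions of `n`.  For every sequence `h` of elements of `ZMod 2`
with `h 0 = 1` and all integers `1 ≤ a < b` there is `n ≠ b` with `a < n ≤ a + b` such that the sum
of `h j * p(n - 5 j)` over `0 ≤ j ≤ n / 5` is odd.  With `h = (1, 0, 0, ...)`: there is `n ≠ b` with
`a < n ≤ a + b` and `p(n)` odd. -/
theorem result (h : ℕ → ZMod 2) (h0 : h 0 = 1) (a b : ℕ) (ha : 1 ≤ a) (hab : a < b) :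
    ∃ n : ℕ, a < n ∧ n ≤ a + b ∧ n ≠ b ∧
      ∑ j ∈ Finset.range (n / 5 + 1),
        h j * (Fintype.card (Nat.Partition (n - 5 * j)) : ZMod 2) ≠ 0 :=
  Pool.Agent.helper81.gap_all h h0 a b ha hab

end Pool.Agent.helper81.Old.ParityGaps
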