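import Mathlib
import Pool.Agent.helper81.PMApprox

set_option autoImplicit false

namespace Pool.Agent.helper81.Old.RationalApprox

/-- Let `P` be the generating power series of the partition numbers over the field with two
elements.  For all polynomials `f` and `g ≠ 0` over this field the series `g * P` and the
polynomial `f` differ in the coefficient of some `X ^ n` with
`n ≤ max (2 deg f + 8 deg g) 4`. -/
theorem result (f g : Polynomial (ZMod 2)) (hg : g ≠ 0) :
    ∃ n ≤ max (2 * f.natDegree + 8 * g.natDegree) 4,
      PowerSeries.coeff n ((g : PowerSeries (ZMod 2)) *
        PowerSeries.mk fun k => (Fintype.card (Nat.Partition k) : ZMod 2)) ≠ f.coeff n :=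
  Pool.Agent.helper81.approx f g hg

end Pool.Agent.helper81.Old.RationalApprox
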